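import Pool.Agent.W93.TD.Stm

/-! # Partial spread functions are bent -/

set_option autoImplicit false

namespace Pool.Agent.W641.TD

open Finset

/-- the sign character -/
def ch (a : ZMod 2) : ℤ := (-1 : ℤ) ^ a.val

theorem ch_add : ∀ a b : ZMod 2, ch (a + b) = ch a * ch b := by decide

theorem ch_zero : ch 0 = 1 := by decide

theorem ch_sq : ∀ a : ZMod 2, ch a ^ 2 = 1 := by decide

theorem ch_of_ne : ∀ a : ZMod 2, a ≠ 0 → ch a = -1 := by decide

theorem ch_eq : ∀ a : ZMod 2, ch a = 1 - 2 * (if a = 1 then 1 else 0) := by decide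

theorem sum_lin {V : Type} [AddCommGroup V] [Module (ZMod 2) V] [Fintype V]
    (L : V →ₗ[ZMod 2] ZMod 2) (hL : L ≠ 0) : ∑ v, ch (L v) = 0 := by
  obtain ⟨v0, h0⟩ : ∃ v0, L v0 ≠ 0 := by
    by_contra hcon
    refine hL (LinearMap.ext fun v => ?_)
    by_contra hv
    exact hcon ⟨v, hv⟩
  have h1 : ∑ v, ch (L v) = ∑ v, ch (L (v + v0)) :=
    (Equiv.sum_comp (Equiv.addRight v0) (fun v => ch (L v))).symm
  have h2 : ∑ v, ch (L (v + v0)) = - ∑ v, ch (L v) := by
    rw [← Finset.sum_neg_distrib]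
    refine Finset.sum_congr rfl fun v _ => ?_
    rw [map_add, ch_add, ch_of_ne _ h0]
    ring
  rw [h2] at h1
  linarith

theorem sum_zero {V : Type} [AddCommGroup V] [Module (ZMod 2) V] [Fintype V]
    (L : V →ₗ[ZMod 2] ZMod 2) (hL : L = 0) : ∑ v, ch (L v) = (Fintype.card V : ℤ) := by
  subst hL
  simp only [LinearMap.zero_apply, ch_zero, Finset.sum_const, Finset.card_univ, nsmul_eq_mul,
    mul_one]

theorem t_BENT : W93.TD.S_BENT := by
  intro k F _ _ _ _ hF hk g hg l
  classical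
  let l1 : F →ₗ[ZMod 2] ZMod 2 := l ∘ₗ LinearMap.inl (ZMod 2) F F
  let l2 : F →ₗ[ZMod 2] ZMod 2 := l ∘ₗ LinearMap.inr (ZMod 2) F F
  have hl : ∀ x y, l (x, y) = l1 x + l2 y := by
    intro x y
    show l (x, y) = l (x, 0) + l (0, y)
    rw [← map_add, Prod.mk_add_mk, add_zero, zero_add]
  let Lg : F → (F →ₗ[ZMod 2] ZMod 2) := fun γ => l1 ∘ₗ (LinearMap.mulLeft (ZMod 2) γ) + l2
  have hLg : ∀ γ y, Lg γ y = l1 (γ * y) + l2 y := fun γ y => rfl
  have hbal : ∑ γ, ch (g γ) = 0 := by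
    have h1 : ∑ γ, ch (g γ) = ∑ γ : F, (1 - 2 * (if g γ = 1 then (1 : ℤ) else 0)) :=
      Finset.sum_congr rfl fun γ _ => ch_eq _
    rw [h1, Finset.sum_sub_distrib, ← Finset.mul_sum, Finset.sum_boole, hg, Finset.sum_const,
      Finset.card_univ, hF]
    obtain ⟨m, rfl⟩ : ∃ m, k = m + 1 := ⟨k - 1, by omega⟩
    rw [Nat.add_sub_cancel]
    push_cast
    simp only [nsmul_eq_mul, mul_one]
    push_cast
    ring
  have hscale : ∀ y : F, y ≠ 0 → ∀ f : F → ℤ, ∑ x, f x = ∑ γ, f (γ * y) := by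
    intro y hy f
    exact (Equiv.sum_comp (Equiv.mulRight₀ y hy) f).symm
  have hmain : ∑ p : F × F, (-1 : ℤ) ^ ((if p.2 = 0 then 0 else g (p.1 / p.2)) + l p).val =
      ∑ x, ch (l1 x) + ∑ γ, ch (g γ) * ∑ y, ch (Lg γ y) := by
    have h1 : ∑ p : F × F, (-1 : ℤ) ^ ((if p.2 = 0 then 0 else g (p.1 / p.2)) + l p).val =
        ∑ y : F, ∑ x : F, ch ((if y = 0 then 0 else g (x / y)) + l (x, y)) := by
      rw [Fintype.sum_prod_type_right]
      rfl
    rw [h1]
    have h2 : ∀ y : F, ∑ x : F, ch ((if y = 0 then 0 else g (x / y)) + l (x, y)) =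
        (if y = 0 then ∑ x, ch (l1 x) else 0) + ∑ γ, ch (g γ) * ch (Lg γ y) := by
      intro y
      by_cases hy : y = 0
      · subst hy
        rw [if_pos rfl]
        have h3 : ∑ γ, ch (g γ) * ch (Lg γ 0) = 0 := by
          have h4 : ∀ γ, ch (g γ) * ch (Lg γ 0) = ch (g γ) := by
            intro γ
            rw [hLg, mul_zero, map_zero, map_zero, add_zero, ch_zero, mul_one]
          rw [Finset.sum_congr rfl fun γ _ => h4 γ, hbal]
        rw [h3, add_zero]
        refine Finset.sum_congr rfl fun x _ => ?_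
        rw [if_pos rfl, zero_add, hl, map_zero, add_zero]
      · rw [if_neg hy, zero_add, hscale y hy]
        refine Finset.sum_congr rfl fun γ _ => ?_
        rw [if_neg hy, mul_div_assoc, div_self hy, mul_one, ch_add, hl, hLg]
    rw [Finset.sum_congr rfl fun y _ => h2 y, Finset.sum_add_distrib, Finset.sum_ite_eq' univ 0,
      if_pos (Finset.mem_univ _), Finset.sum_comm]
    congr 1
    refine Finset.sum_congr rfl fun γ _ => ?_
    rw [Finset.mul_sum]
  rw [hmain]
  have hFz : (Fintype.card F : ℤ) = 2 ^ k := by rw [hF]; push_cast; rfl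
  by_cases h0 : l1 = 0
  · have h1 : ∀ γ, ∑ y, ch (Lg γ y) = ∑ y, ch (l2 y) := by
      intro γ
      refine Finset.sum_congr rfl fun y _ => ?_
      rw [hLg, h0, LinearMap.zero_apply, zero_add]
    have h2 : ∑ γ, ch (g γ) * ∑ y, ch (Lg γ y) = 0 := by
      have h3 : ∀ γ, ch (g γ) * ∑ y, ch (Lg γ y) = ch (g γ) * ∑ y, ch (l2 y) := by
        intro γ
        rw [h1 γ]
      rw [Finset.sum_congr rfl fun γ _ => h3 γ, ← Finset.sum_mul, hbal, zero_mul]
    rw [h2, add_zero, sum_zero l1 h0, hFz]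
    ring
  · rw [sum_lin l1 h0, zero_add]
    have hS : ∀ γ, ∑ y, ch (Lg γ y) = if Lg γ = 0 then (2 : ℤ) ^ k else 0 := by
      intro γ
      by_cases h : Lg γ = 0
      · rw [if_pos h, sum_zero _ h, hFz]
      · rw [if_neg h, sum_lin _ h]
    have htot : ∑ γ, ∑ y, ch (Lg γ y) = (2 : ℤ) ^ k := by
      rw [Finset.sum_comm]
      have h2 : ∀ y : F, ∑ γ, ch (Lg γ y) = if y = 0 then (2 : ℤ) ^ k else 0 := by
        intro y
        by_cases hy : y = 0
        · subst hy
          rw [if_pos rfl]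
          have h3 : ∀ γ, ch (Lg γ 0) = 1 := by
            intro γ
            rw [hLg, mul_zero, map_zero, map_zero, add_zero, ch_zero]
          rw [Finset.sum_congr rfl fun γ _ => h3 γ, Finset.sum_const, Finset.card_univ,
            nsmul_eq_mul, mul_one, hFz]
        · rw [if_neg hy]
          have h3 : ∀ γ, ch (Lg γ y) = ch (l1 (γ * y)) * ch (l2 y) := by
            intro γ
            rw [hLg, ch_add]
          rw [Finset.sum_congr rfl fun γ _ => h3 γ, ← Finset.sum_mul,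
            ← hscale y hy (fun x => ch (l1 x)), sum_lin l1 h0, zero_mul]
      rw [Finset.sum_congr rfl fun y _ => h2 y, Finset.sum_ite_eq' univ 0,
        if_pos (Finset.mem_univ _)]
    have hcard : (univ.filter (fun γ => Lg γ = 0)).card = 1 := by
      rw [Finset.sum_congr rfl fun γ _ => hS γ, ← Finset.sum_filter, Finset.sum_const,
        nsmul_eq_mul] at htot
      have h3 : (2 : ℤ) ^ k ≠ 0 := by positivity
      have h4 : (((univ.filter (fun γ => Lg γ = 0)).card : ℤ)) = 1 := by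
        have h5 : (((univ.filter (fun γ => Lg γ = 0)).card : ℤ) - 1) * (2 : ℤ) ^ k = 0 := by
          rw [sub_mul, htot, one_mul, sub_self]
        rcases mul_eq_zero.mp h5 with h6 | h6
        · linarith
        · exact absurd h6 h3
      exact_mod_cast h4
    obtain ⟨γ0, hγ0⟩ := Finset.card_eq_one.mp hcard
    have hsum : ∑ γ, ch (g γ) * ∑ y, ch (Lg γ y) = ch (g γ0) * 2 ^ k := by
      have h6 : ∀ γ, ch (g γ) * ∑ y, ch (Lg γ y) =
          if Lg γ = 0 then ch (g γ) * (2 : ℤ) ^ k else 0 := by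
        intro γ
        rw [hS γ]
        by_cases h : Lg γ = 0
        · rw [if_pos h, if_pos h]
        · rw [if_neg h, if_neg h, mul_zero]
      rw [Finset.sum_congr rfl fun γ _ => h6 γ, ← Finset.sum_filter, hγ0, Finset.sum_singleton]
    rw [hsum, mul_pow, ch_sq, one_mul]
    ring

end Pool.Agent.W641.TD
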